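import Pool.Agent.Y217.PB.Stm

/-! Task S3 of project PB: preimages of triangles under an embedding are acyclic. -/

set_option autoImplicit false

universe u

namespace Pool.Agent.Y543.PB

open Set Topology Metric
open Pool.Agent.Helper775.Surf Pool.Agent.Helper775.Clo Pool.Agent.Y217.PB
open scoped InnerProductSpace

/-- a space of dimension at most two is a linear image of the plane, with a linear section -/
theorem plane_section {N : ℕ} (V : Submodule ℝ (EuclideanSpace ℝ (Fin N)))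
    (hV : Module.finrank ℝ V ≤ 2) :
    ∃ (R : ℝ × ℝ →ₗ[ℝ] EuclideanSpace ℝ (Fin N)) (L : EuclideanSpace ℝ (Fin N) →ₗ[ℝ] ℝ × ℝ),
      ∀ v ∈ V, R (L v) = v := by
  have h2 : Module.finrank ℝ V ≤ Module.finrank ℝ (ℝ × ℝ) := by
    rw [Module.finrank_prod, Module.finrank_self]; exact hV
  obtain ⟨g, hg⟩ := (finrank_le_iff_exists_linearMap (R := ℝ) (M := V) (M' := ℝ × ℝ)).1 h2
  obtain ⟨r, hr⟩ := LinearMap.exists_leftInverse_of_injective g (LinearMap.ker_eq_bot.2 hg)
  obtain ⟨L, hL⟩ := LinearMap.exists_extend g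
  refine ⟨V.subtype ∘ₗ r, L, fun v hv => ?_⟩
  have h1 : L v = g ⟨v, hv⟩ := by
    have := LinearMap.congr_fun hL ⟨v, hv⟩
    simpa using this
  have h3 : r (g ⟨v, hv⟩) = ⟨v, hv⟩ := by
    have := LinearMap.congr_fun hr ⟨v, hv⟩
    simpa using this
  show V.subtype (r (L v)) = v
  rw [h1, h3]
  rfl

/-- PB-S3 -/
theorem triAcyc (hI : JIntr.{u}) : JTriAcyc.{u} := by
  intro M _ _ _ _ N f hf hinj T hT hconv hdim hTr t ht
  set X : Set M := {x | f x ∈ T} with hX
  have hXc : IsClosed X := hT.isClosed.preimage hf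
  have hemb : IsClosedEmbedding f := hf.isClosedEmbedding hinj
  rcases T.eq_empty_or_nonempty with hemp | ⟨p0, hp0⟩
  · refine ⟨0, fun x hx => ?_⟩
    have hx' : f x ∈ T := hx
    rw [hemp] at hx'
    exact hx'.elim
  obtain ⟨x0, hx0⟩ := hTr hp0
  obtain ⟨R, L, hRL⟩ := plane_section (vectorSpan ℝ T) hdim
  have hRc : Continuous R := R.continuous_of_finiteDimensional
  have hLc : Continuous L := L.continuous_of_finiteDimensional
  -- the inverse of `f` on `T`
  classical
  let h : EuclideanSpace ℝ (Fin N) → M := fun y => if hy : y ∈ T then (hTr hy).choose else x0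
  have hh : ∀ y ∈ T, f (h y) = y := fun y hy => by
    show f (if hy : y ∈ T then (hTr hy).choose else x0) = y
    rw [dif_pos hy]
    exact (hTr hy).choose_spec
  have hhf : ∀ x ∈ X, h (f x) = x := fun x hx => hinj (hh (f x) hx)
  let T' : Set (ℝ × ℝ) := {q | p0 + R q ∈ T}
  have hT' : Convex ℝ T' := by
    intro a ha b hb α β hα hβ hαβ
    have h1 := hconv ha hb hα hβ hαβ
    show p0 + R (α • a + β • b) ∈ T
    have h2 : p0 + R (α • a + β • b) = α • (p0 + R a) + β • (p0 + R b) := by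
      rw [map_add, map_smul, map_smul, smul_add, smul_add]
      have : p0 = α • p0 + β • p0 := by rw [← add_smul, hαβ, one_smul]
      nth_rewrite 1 [this]
      abel
    rw [h2]
    exact h1
  let t' : ℝ × ℝ → ℝ × ℝ → ZMod 2 := fun a b => t (h (p0 + R a)) (h (p0 + R b))
  have ht' : ∀ p ∈ T', ∃ W ∈ 𝓝[T'] p, ∀ a ∈ W, ∀ b ∈ W, ∀ c ∈ W,
      t' a b + t' b c = t' a c := by
    intro p hp
    have hx : h (p0 + R p) ∈ X := by
      show f (h (p0 + R p)) ∈ T
      rw [hh _ hp]
      exact hp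
    obtain ⟨W, hW, hWc⟩ := ht _ hx
    rw [hemb.isInducing.nhds_eq_comap, hh _ hp, Filter.mem_comap] at hW
    obtain ⟨U, hU, hUW⟩ := hW
    have hcont : Filter.Tendsto (fun q : ℝ × ℝ => p0 + R q) (𝓝 p) (𝓝 (p0 + R p)) :=
      (continuous_const.add hRc).tendsto p
    refine ⟨{q | p0 + R q ∈ U} ∩ T', Filter.inter_mem (mem_nhdsWithin_of_mem_nhds
      (hcont hU)) self_mem_nhdsWithin, ?_⟩
    have hm : ∀ a ∈ {q | p0 + R q ∈ U} ∩ T', h (p0 + R a) ∈ W := fun a ha => by
      apply hUW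
      show f (h (p0 + R a)) ∈ U
      rw [hh _ ha.2]
      exact ha.1
    exact fun a ha b hb c hc => hWc _ (hm a ha) _ (hm b hb) _ (hm c hc)
  obtain ⟨s', hs'⟩ := convex_null hT' ht'
  -- the trivialization on `X`
  have hback : ∀ x ∈ X, p0 + R (L (f x - p0)) = f x := fun x hx => by
    have h1 : f x - p0 ∈ vectorSpan ℝ T := by
      have := vsub_mem_vectorSpan ℝ (show f x ∈ T from hx) hp0
      simpa using this
    rw [hRL _ h1]
    abel
  obtain ⟨σ, hσ, -⟩ := hI M X t (fun x => s' (L (f x - p0))) hXc ht (by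
    intro x hx
    have hp : L (f x - p0) ∈ T' := by
      show p0 + R (L (f x - p0)) ∈ T
      rw [hback x hx]
      exact hx
    obtain ⟨W, hW, hWc⟩ := hs' _ hp
    obtain ⟨U, hU, hUW⟩ := mem_nhdsWithin_iff_exists_mem_nhds_inter.1 hW
    have hcont : Filter.Tendsto (fun y : M => L (f y - p0)) (𝓝 x) (𝓝 (L (f x - p0))) :=
      (hLc.comp (hf.sub continuous_const)).tendsto x
    refine ⟨{y | L (f y - p0) ∈ U}, hcont hU, fun a ha b hb => ?_⟩
    have hm : ∀ y ∈ {y | L (f y - p0) ∈ U} ∩ X, L (f y - p0) ∈ W := fun y hy => by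
      refine hUW ⟨hy.1, ?_⟩
      show p0 + R (L (f y - p0)) ∈ T
      rw [hback y hy.2]
      exact hy.2
    have key := hWc _ (hm a ha) _ (hm b hb)
    have e1 : t' (L (f a - p0)) (L (f b - p0)) = t a b := by
      show t (h (p0 + R (L (f a - p0)))) (h (p0 + R (L (f b - p0)))) = t a b
      rw [hback a ha.2, hback b hb.2, hhf a ha.2, hhf b hb.2]
    rw [← e1]
    exact key)
  exact ⟨σ, hσ⟩

end Pool.Agent.Y543.PB
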